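import Pool.Agent.W941.TH.Final

/-!
Over `RCA₀` alone, thin-HT implies `ACA₀`: every structure for second-order arithmetic that
satisfies the axioms of `RCA₀` and thin-HT satisfies arithmetical comprehension.
-/

namespace Pool.Agent.Results.MP_6f1bc5_lc.ThinHTImpliesACA

open Pool.Agent.Helper617.RM Pool.Agent.W941.TH

universe u

theorem result (N : L2Structure.{u}) [IsModelRCA0 N] (h : ThinHT N) : ArithComp N := by
  haveI := sig1_of_thinHT h
  exact arithComp_of_sig1

end Pool.Agent.Results.MP_6f1bc5_lc.ThinHTImpliesACA
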